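import Pool.Agent.H27.L1.H68.GHK.Targets
import Pool.Agent.H27.L1.H52.GA.MS1
import Pool.Agent.H27.L1.H84.GA.BIA

/-!
# MP_52e316_nt, row TRF of ghk_modules: small translates of a cusp form
-/

set_option autoImplicit false

namespace Pool.Agent.H27.L1.H88.GHK

open MeasureTheory Pool.Agent.H27.L1.H34.GM Pool.Agent.H27.L1.H34.GZ Pool.Agent.H27.L1.H34.GU Pool.Agent.H27.L1.H34.GA
open Pool.Agent.H27.L1.H68.GHK
open Pool.Agent.H27.L1.H46.GU (cR_det fz wd fz_eq fn_meas wd_meas dom_det)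
open Pool.Agent.H27.L1.H52.GA (ms_nU ms_sub)
open scoped ENNReal

/-- translates of Hecke eigenfunctions -/
theorem rt_heca {m N : ℕ} [NeZero N] {T : ℕ → Finset (ZM m)} {F : Mat m → VN m N → ℂ}
    {lam : ℕ → ℂ} (hF : HecA m N T F lam) {u : Mat m} (hu : u.det ≠ 0) :
    HecA m N T (rt u F) lam := by
  obtain ⟨B, hB⟩ := hF.bdd
  have hd : ∀ {g : Mat m}, g.det ≠ 0 → (g * u).det ≠ 0 := by
    intro g hg
    rw [Matrix.det_mul]
    exact mul_ne_zero hg hu
  refine ⟨?_, ?_, ?_, ?_, ?_, ?_⟩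
  · intro x
    have h1 : ContinuousOn (fun g : Mat m => g * u) {g | g.det ≠ 0} :=
      (continuous_id.mul continuous_const).continuousOn
    exact (hF.cont x).comp h1 fun g hg => hd hg
  · intro g x hx
    exact hF.supp _ x hx
  · intro γ hγ g x hg
    show F (cR γ * g * u) (ac N γ x) = F (g * u) x
    rw [Matrix.mul_assoc]
    exact hF.auto γ hγ _ x (hd hg)
  · intro r hr g x hg
    show F (r • g * u) x = F (g * u) x
    rw [Matrix.smul_mul]
    exact hF.scal r hr _ x (hd hg)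
  · intro n hn g x hg
    show ∑ α ∈ T n, F (cR α * g * u) (ac N α x) = _ * F (g * u) x
    rw [← hF.hecke n hn (g * u) x (hd hg)]
    refine Finset.sum_congr rfl fun α _ => ?_
    rw [Matrix.mul_assoc]
  · exact ⟨B, fun g x hg => hB _ x (hd hg)⟩

/-- translates of cusp forms -/
theorem rt_cusb {m N : ℕ} [NeZero N] {T : ℕ → Finset (ZM m)} {F : Mat m → VN m N → ℂ}
    {lam : ℕ → ℂ} (hF : CusB m N T F lam) {u : Mat m} (hu : u.det ≠ 0) :
    CusB m N T (rt u F) lam := by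
  have hd : ∀ {g : Mat m}, g.det ≠ 0 → (g * u).det ≠ 0 := by
    intro g hg
    rw [Matrix.det_mul]
    exact mul_ne_zero hg hu
  refine { toHecA := rt_heca hF.toHecA hu, prim := ?_, cusp := ?_ }
  · intro v hv g hg
    exact hF.prim v hv (g * u) (hd hg)
  · intro k hk hkm g x hg
    have h1 := hF.cusp k hk hkm (g * u) x (hd hg)
    rw [← h1]
    refine integral_congr_ae (Filter.Eventually.of_forall fun v => ?_)
    show F ((1 + (N : ℝ) • nk k v) * g * u) x = F ((1 + (N : ℝ) • nk k v) * (g * u)) x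
    rw [Matrix.mul_assoc]

theorem wd_rt {m N : ℕ} [NeZero N] (F : Mat m → VN m N → ℂ) {u : Mat m} (hu : u.det ≠ 0)
    {z : V m} (hz : (mt z).det ≠ 0) : wd (rt u F) z = wd F (fun i j => (mt z * u) i j) := by
  have hd : (mt (fun i j => (mt z * u) i j) : Mat m).det ≠ 0 := by
    show (mt z * u).det ≠ 0
    rw [Matrix.det_mul]
    exact mul_ne_zero hz hu
  unfold wd
  refine Finset.sum_congr rfl fun x _ => ?_
  rw [fz_eq _ _ hz, fz_eq _ _ hd]
  rfl

/-- the mass of the translate -/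
theorem rt_mass (hRTI : T_RTI) (hALU : T_ALU) (hMSR : T_MSR) {m N : ℕ} [NeZero N]
    {T : ℕ → Finset (ZM m)} {D : Set (V m)} (hS : SysZ m N T D) {F : Mat m → VN m N → ℂ}
    {lam : ℕ → ℂ} (hF : HecA m N T F lam) {u : Mat m} (hu : u.det ≠ 0) :
    ∫⁻ z in D, wd (rt u F) z ∂(hm m) = ∫⁻ z in D, wd F z ∂(hm m) := by
  have hbij := (hALU m N hS.one_le hS.two_le).2.2.2.2.2
  rw [← hRTI m hS.one_le D hS.dom (wd F) (wd_meas hMSR hF.cont)
    (fun γ hγ z hz => Pool.Agent.H27.L1.H91.GA.rrn_inv hF hγ (hbij γ hγ) hz)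
    (fun c hc z hz => Pool.Agent.H27.L1.H91.GA.rrn_scal hF hc hz) u hu]
  refine setLIntegral_congr_fun hS.dom.meas fun z hz => ?_
  exact wd_rt F hu (dom_det hS.one_le hS.dom hz)

theorem nu_nn {m N : ℕ} [NeZero N] (D : Set (V m)) (F : Mat m → VN m N → ℂ) : 0 ≤ nU D F :=
  Finset.sum_nonneg fun _ _ => integral_nonneg fun _ => by positivity

/-- the norm of the translate -/
theorem rt_nu (hVLM : T_VLM) (hRTI : T_RTI) (hALU : T_ALU) (hMSR : T_MSR) {m N : ℕ} [NeZero N]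
    {T : ℕ → Finset (ZM m)} {D : Set (V m)} (hS : SysZ m N T D) {F : Mat m → VN m N → ℂ}
    {lam : ℕ → ℂ} (hF : HecA m N T F lam) {u : Mat m} (hu : u.det ≠ 0) :
    nU D (rt u F) = nU D F := by
  have h1 := ms_nU hVLM hMSR hS.one_le hS.dom hF
  have h2 := ms_nU hVLM hMSR hS.one_le hS.dom (rt_heca hF hu)
  rw [rt_mass hRTI hALU hMSR hS hF hu, h1] at h2
  have h3 := congrArg ENNReal.toReal h2
  rw [ENNReal.toReal_ofReal (nu_nn D F), ENNReal.toReal_ofReal (nu_nn D _)] at h3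
  exact h3.symm

/-- the trivial bound of the norm of a difference -/
theorem nu_sub (hVLM : T_VLM) (hMSR : T_MSR) {m N : ℕ} [NeZero N]
    {T : ℕ → Finset (ZM m)} {D : Set (V m)} (hS : SysZ m N T D) {F G : Mat m → VN m N → ℂ}
    {lam : ℕ → ℂ} (hF : HecA m N T F lam) (hG : HecA m N T G lam) :
    nU D (fun g x => F g x - 1 * G g x) ≤ 2 * nU D F + 2 * nU D G := by
  have h1 := ms_nU hVLM hMSR hS.one_le hS.dom hF
  have h2 := ms_nU hVLM hMSR hS.one_le hS.dom hG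
  have h3 := ms_nU hVLM hMSR hS.one_le hS.dom (ms_sub hF hG 1)
  have h4 : ∫⁻ z in D, wd (fun g x => F g x - 1 * G g x) z ∂(hm m) ≤
      2 * ∫⁻ z in D, wd F z ∂(hm m) + 2 * ∫⁻ z in D, wd G z ∂(hm m) := by
    rw [← lintegral_const_mul _ (wd_meas hMSR hF.cont),
      ← lintegral_const_mul _ (wd_meas hMSR hG.cont),
      ← lintegral_add_left ((wd_meas hMSR hF.cont).const_mul 2)]
    refine setLIntegral_mono' hS.dom.meas fun z hz => ?_
    have hz0 := dom_det hS.one_le hS.dom hz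
    unfold wd
    rw [Finset.mul_sum, Finset.mul_sum, ← Finset.sum_add_distrib]
    refine Finset.sum_le_sum fun x _ => ?_
    rw [fz_eq _ _ hz0, fz_eq _ _ hz0, fz_eq _ _ hz0, one_mul, ← ENNReal.ofReal_pow (norm_nonneg _),
      ← ENNReal.ofReal_pow (norm_nonneg _), ← ENNReal.ofReal_pow (norm_nonneg _),
      show (2 : ℝ≥0∞) = ENNReal.ofReal 2 by simp, ← ENNReal.ofReal_mul (by norm_num),
      ← ENNReal.ofReal_mul (by norm_num), ← ENNReal.ofReal_add (by positivity) (by positivity)]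
    refine ENNReal.ofReal_le_ofReal ?_
    have h5 := norm_sub_le (F (mt z) x) (G (mt z) x)
    have h6 := norm_nonneg (F (mt z) x - G (mt z) x)
    nlinarith [sq_nonneg (‖F (mt z) x‖ - ‖G (mt z) x‖)]
  rw [h1, h2, h3, show (2 : ℝ≥0∞) = ENNReal.ofReal 2 by simp, ← ENNReal.ofReal_mul (by norm_num),
    ← ENNReal.ofReal_mul (by norm_num), ← ENNReal.ofReal_add (mul_nonneg zero_le_two (nu_nn D F))
      (mul_nonneg zero_le_two (nu_nn D G))] at h4
  exact (ENNReal.ofReal_le_ofReal_iff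
    (add_nonneg (mul_nonneg zero_le_two (nu_nn D F)) (mul_nonneg zero_le_two (nu_nn D G)))).1 h4

/-- matrices near `1` are invertible -/
theorem near_det {m : ℕ} {w : Mat m} (hw : 2 * m * sz (w - 1) ≤ 1) : w.det ≠ 0 := by
  have h0 := Pool.Agent.H27.L1.H84.GA.BD.sz_nn (w - 1)
  have h1 : ∑ i, ∑ j, ((w - 1) i j) ^ 2 < 1 := by
    have h2 : ∑ i, ∑ j, ((w - 1) i j) ^ 2 ≤ m * (m * (sz (w - 1)) ^ 2) := by
      calc ∑ i, ∑ j, ((w - 1) i j) ^ 2 ≤ ∑ _i : Fin m, ∑ _j : Fin m, (sz (w - 1)) ^ 2 :=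
            Finset.sum_le_sum fun i _ => Finset.sum_le_sum fun j _ => by
              rw [← sq_abs]
              exact pow_le_pow_left₀ (abs_nonneg _) (Pool.Agent.H27.L1.H84.GA.BD.le_sz _ _ _) 2
        _ = _ := by
            rw [Finset.sum_const, Finset.sum_const, Finset.card_univ, Fintype.card_fin,
              nsmul_eq_mul, nsmul_eq_mul]
    have h3 : (2 * m * sz (w - 1)) ^ 2 ≤ 1 := by
      have h4 : (0 : ℝ) ≤ 2 * m * sz (w - 1) := by positivity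
      nlinarith
    nlinarith
  have h3 := Pool.Agent.H27.L1.H84.GA.BD.det_ne (w - 1) h1
  rwa [add_sub_cancel] at h3

theorem sz_one_le {m : ℕ} : sz (1 : Mat m) ≤ 1 := by
  refine Pool.Agent.H27.L1.H84.GA.BD.sz_le zero_le_one fun i j => ?_
  rw [Matrix.one_apply]
  split_ifs <;> simp

theorem sz_bd {m : ℕ} {u : Mat m} (hm1 : 1 ≤ m) (hu : 16 * m * sz (u - 1) ≤ 1) :
    u.det ≠ 0 ∧ sz u⁻¹ ≤ 2 ∧ sz u ≤ 2 := by
  have h0 := Pool.Agent.H27.L1.H84.GA.BD.sz_nn (u - 1)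
  have hmR : (1 : ℝ) ≤ m := by exact_mod_cast hm1
  have hms : 0 ≤ (m : ℝ) * sz (u - 1) := by positivity
  have hdet : u.det ≠ 0 := near_det (by linarith)
  have hun : IsUnit u.det := isUnit_iff_ne_zero.2 hdet
  have hone := sz_one_le (m := m)
  refine ⟨hdet, ?_, ?_⟩
  · have h1 : u⁻¹ = 1 - u⁻¹ * (u - 1) := by
      rw [Matrix.mul_sub, Matrix.nonsing_inv_mul _ hun, Matrix.mul_one, sub_sub_cancel]
    have h2 : sz u⁻¹ ≤ sz (1 : Mat m) + sz (u⁻¹ * (u - 1)) := by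
      have h3 : sz (1 - u⁻¹ * (u - 1)) ≤ sz (1 : Mat m) + sz (u⁻¹ * (u - 1)) :=
        norm_sub_le (fun i j => (1 : Mat m) i j : V m) (fun i j => (u⁻¹ * (u - 1)) i j : V m)
      rwa [← h1] at h3
    have h3 := Pool.Agent.H27.L1.H84.GA.BD.sz_mul u⁻¹ (u - 1)
    have h4 := Pool.Agent.H27.L1.H84.GA.BD.sz_nn u⁻¹
    have h5 : (m : ℝ) * sz u⁻¹ * sz (u - 1) ≤ sz u⁻¹ / 16 := by
      calc (m : ℝ) * sz u⁻¹ * sz (u - 1) = sz u⁻¹ * (m * sz (u - 1)) := by ring
        _ ≤ sz u⁻¹ * (1 / 16) := mul_le_mul_of_nonneg_left (by linarith) h4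
        _ = _ := by ring
    linarith
  · have h1 : sz u ≤ sz (u - 1) + sz (1 : Mat m) := by
      have h3 : sz ((u - 1) + 1) ≤ sz (u - 1) + sz (1 : Mat m) :=
        norm_add_le (fun i j => (u - 1) i j : V m) (fun i j => (1 : Mat m) i j : V m)
      rwa [sub_add_cancel] at h3
    have h2 : sz (u - 1) ≤ m * sz (u - 1) := le_mul_of_one_le_left h0 hmR
    linarith

theorem pf_TRF (hVLM : T_VLM) (hRTI : T_RTI) (hALU : T_ALU) (hMSR : T_MSR) : T_TRF := by
  intro m hm1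
  have hmR : (1 : ℝ) ≤ m := by exact_mod_cast hm1
  have hm3 : (1 : ℝ) ≤ (m : ℝ) ^ 3 := one_le_pow₀ hmR
  refine ⟨16 * m ^ 3, by linarith, ?_⟩
  intro N _ T D hS F lam P hF hn hLip hP u hu
  obtain ⟨hud, hs1, hs2⟩ := sz_bd hm1 hu
  have hun : IsUnit u.det := isUnit_iff_ne_zero.2 hud
  refine ⟨rt_cusb hF hud, (rt_nu hVLM hRTI hALU hMSR hS hF.toHecA hud).trans hn, ?_⟩
  intro w hw
  have hwd := near_det hw
  have hw0 := Pool.Agent.H27.L1.H84.GA.BD.sz_nn (w - 1)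
  obtain ⟨w', hw'⟩ : ∃ w', w' = u⁻¹ * w * u := ⟨_, rfl⟩
  have hw'd : w'.det ≠ 0 := by
    rw [hw', Matrix.det_mul, Matrix.det_mul]
    exact mul_ne_zero (mul_ne_zero (Pool.Agent.H27.L1.H91.GA.inv_det hud) hwd) hud
  have huw : u * w' = w * u := by
    rw [hw', Matrix.mul_assoc, ← Matrix.mul_assoc u, Matrix.mul_nonsing_inv _ hun,
      Matrix.one_mul]
  have hw'1 : w' - 1 = u⁻¹ * (w - 1) * u := by
    rw [Matrix.mul_sub, Matrix.sub_mul, Matrix.mul_one, Matrix.nonsing_inv_mul _ hun, hw']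
  have hsz : sz (w' - 1) ≤ 4 * m ^ 2 * sz (w - 1) := by
    rw [hw'1]
    refine (Pool.Agent.H27.L1.H84.GA.BD.sz_mul _ _).trans ?_
    have h1 := Pool.Agent.H27.L1.H84.GA.BD.sz_mul u⁻¹ (w - 1)
    have h2 : (m : ℝ) * sz u⁻¹ * sz (w - 1) ≤ m * 2 * sz (w - 1) :=
      mul_le_mul_of_nonneg_right (mul_le_mul_of_nonneg_left hs1 (by positivity)) hw0
    calc (m : ℝ) * sz (u⁻¹ * (w - 1)) * sz u ≤ m * (m * 2 * sz (w - 1)) * 2 :=
          mul_le_mul (mul_le_mul_of_nonneg_left (h1.trans h2) (by positivity)) hs2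
            (Pool.Agent.H27.L1.H84.GA.BD.sz_nn _) (by positivity)
      _ = _ := by ring
  obtain ⟨H, hHd⟩ : ∃ H : Mat m → VN m N → ℂ, H = fun g x => rt w' F g x - 1 * F g x := ⟨_, rfl⟩
  have hH : HecA m N T H lam := by
    rw [hHd]
    exact ms_sub (rt_heca hF.toHecA hw'd) hF.toHecA 1
  have e1 : ∑ x, ∫ (z : V m) in D, ‖rt u F ((mt z : Mat m) * w) x - rt u F (mt z) x‖ ^ 2 ∂(hm m) =
      nU D (rt u H) := by
    unfold nU
    refine Finset.sum_congr rfl fun x _ =>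
      integral_congr_ae (Filter.Eventually.of_forall fun z => ?_)
    rw [hHd]
    show ‖F (mt z * w * u) x - F (mt z * u) x‖ ^ 2 =
      ‖F (mt z * u * w') x - 1 * F (mt z * u) x‖ ^ 2
    rw [one_mul, Matrix.mul_assoc (mt z) w u, ← huw, ← Matrix.mul_assoc]
  have e2 : nU D H =
      ∑ x, ∫ (z : V m) in D, ‖F ((mt z : Mat m) * w') x - F (mt z) x‖ ^ 2 ∂(hm m) := by
    unfold nU
    refine Finset.sum_congr rfl fun x _ =>
      integral_congr_ae (Filter.Eventually.of_forall fun z => ?_)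
    rw [hHd]
    show ‖F (mt z * w') x - 1 * F (mt z) x‖ ^ 2 = ‖F (mt z * w') x - F (mt z) x‖ ^ 2
    rw [one_mul]
  rw [e1, rt_nu hVLM hRTI hALU hMSR hS hH hud]
  by_cases h : 2 * m * sz (w' - 1) ≤ 1
  · rw [e2]
    refine (hLip w' h).trans ?_
    refine pow_le_pow_left₀ (mul_nonneg hP (Pool.Agent.H27.L1.H84.GA.BD.sz_nn _)) ?_ 2
    have h1 : (m : ℝ) ^ 2 ≤ m ^ 3 := pow_le_pow_right₀ hmR (by norm_num)
    calc P * sz (w' - 1) ≤ P * (4 * m ^ 2 * sz (w - 1)) := mul_le_mul_of_nonneg_left hsz hP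
      _ = (4 * m ^ 2) * P * sz (w - 1) := by ring
      _ ≤ (16 * m ^ 3) * (1 + P) * sz (w - 1) := by
          refine mul_le_mul_of_nonneg_right ?_ hw0
          refine mul_le_mul (by linarith) (by linarith) hP (by positivity)
  · have h4 : nU D H ≤ 4 := by
      rw [hHd]
      refine (nu_sub hVLM hMSR hS (rt_heca hF.toHecA hw'd) hF.toHecA).trans ?_
      rw [rt_nu hVLM hRTI hALU hMSR hS hF.toHecA hw'd, hn]
      norm_num
    refine h4.trans ?_
    have h5 : 1 < 2 * m * sz (w' - 1) := not_le.1 h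
    have h6 : 2 ≤ 16 * m ^ 3 * (1 + P) * sz (w - 1) := by
      have h7 : 2 * m * sz (w' - 1) ≤ 2 * m * (4 * m ^ 2 * sz (w - 1)) :=
        mul_le_mul_of_nonneg_left hsz (by positivity)
      have h8 : 2 * (m : ℝ) * (4 * m ^ 2 * sz (w - 1)) = 8 * m ^ 3 * sz (w - 1) := by ring
      have h9 : 0 ≤ 16 * (m : ℝ) ^ 3 * sz (w - 1) * P := by positivity
      nlinarith
    calc (4 : ℝ) = 2 ^ 2 := by norm_num
      _ ≤ _ := pow_le_pow_left₀ zero_le_two h6 2

end Pool.Agent.H27.L1.H88.GHK
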